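import Pool.Agent.Helper5.FV.Stmts
import Pool.Agent.Helper41.UN.WL2

/-! # Row WM2 (MP_e96806_co): second differences of the terms of the inclusion-exclusion sum -/

set_option autoImplicit false

open Finset Pool.Agent.Helper8.UN

namespace Pool.Agent.Helper5.FV

theorem st_WM2 (hWL0 : Pool.Agent.Helper8.UN.ST_WL0) (hWM1 : ST_WM1) : ST_WM2 := by
  obtain ⟨n1, H1⟩ := hWM1
  obtain ⟨n2, H2⟩ := wl2_large
  refine ⟨max (max n1 n2) 3, ?_⟩
  intro n hn p hW m i hm1 hm2 hi
  have hn1 : n1 ≤ n := le_trans (le_trans (le_max_left _ _) (le_max_left _ _)) hn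
  have hn2 : n2 ≤ n := le_trans (le_trans (le_max_right _ _) (le_max_left _ _)) hn
  have hn3 : 3 ≤ n := le_trans (le_max_right _ _) hn
  obtain ⟨hl1, hl4⟩ := H2 n hn2
  set l : ℝ := Real.log n with hl
  have hnpos : (0 : ℝ) < n := by
    have : 0 < n := by omega
    exact_mod_cast this
  have hlpos : 0 < l := by linarith
  have hq : 400 * l ≤ 1 / 100 * ((n : ℝ) / l) := by
    rw [← mul_div_assoc, le_div_iff₀ hlpos]
    have h1 : l ^ 2 ≤ l ^ 4 := pow_le_pow_right₀ hl1 (by norm_num)
    nlinarith
  have hmbig : 27200 * l ≤ m := by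
    have : 68 / 100 * ((n : ℝ) / l) = 68 * (1 / 100 * ((n : ℝ) / l)) := by ring
    rw [this] at hm1
    linarith
  have hmpos : (0 : ℝ) < m := by linarith
  have him : i + 1 ≤ m := by
    have : (i : ℝ) + 1 ≤ m := by linarith
    exact_mod_cast this
  set x : ℝ := (n : ℝ) / (m : ℝ) ^ 2 with hx
  have hx0 : 0 ≤ x := by positivity
  have hxs : x * l ^ 2 ≤ 6 / 100000 := by
    have h1 : (68 / 100 * ((n : ℝ) / l)) ^ 2 ≤ (m : ℝ) ^ 2 :=
      pow_le_pow_left₀ (by positivity) hm1 2
    have h2 : (68 / 100 * ((n : ℝ) / l)) ^ 2 * l ^ 2 = (68 / 100) ^ 2 * (n : ℝ) ^ 2 := by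
      field_simp
    have h3 : (68 / 100) ^ 2 * (n : ℝ) ^ 2 ≤ (m : ℝ) ^ 2 * l ^ 2 := by
      rw [← h2]
      exact mul_le_mul_of_nonneg_right h1 (by positivity)
    rw [hx, div_mul_eq_mul_div, div_le_iff₀ (by positivity)]
    -- n l^2 <= 6/100000 m^2
    have h4 : (n : ℝ) * l ^ 2 * l ^ 2 ≤ 6 / 100000 * (m : ℝ) ^ 2 * l ^ 2 := by
      have h5 : (n : ℝ) * l ^ 2 * l ^ 2 = n * l ^ 4 := by ring
      rw [h5]
      have h6 : (n : ℝ) * l ^ 4 ≤ n * (1 / 40000 * (n : ℝ)) :=
        mul_le_mul_of_nonneg_left hl4 hnpos.le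
      nlinarith
    have h7 : 0 < l ^ 2 := by positivity
    exact le_of_mul_le_mul_right h4 h7
  -- the window
  have hk : ∀ j : ℕ, (j : ℝ) ≤ 4 * l + 1 →
      0 < lam p (m - j) ∧ 0 < lam p (m - j + 1) ∧
      lam p (m - j) * Real.exp (998 / 1000 * x) ≤ lam p (m - j + 1) ∧
      lam p (m - j + 1) ≤ lam p (m - j) * Real.exp (1005 / 1000 * x) := by
    intro j hj
    have hjm : j ≤ m := by
      have : (j : ℝ) ≤ m := by linarith
      exact_mod_cast this
    apply H1 n hn1 p hW m (m - j) hm1 hm2
    · rw [Nat.cast_sub hjm]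
      have : (0 : ℝ) ≤ j := Nat.cast_nonneg _
      linarith
    · rw [Nat.cast_sub hjm]
      linarith
  have hp : ∀ j : ℕ, (j : ℝ) ≤ 4 * l + 1 → 0 < p (m - j) := by
    intro j hj
    have hjm : j ≤ m := by
      have : (j : ℝ) ≤ m := by linarith
      exact_mod_cast this
    have h1 := hW (m - j) (by
      rw [Nat.cast_sub hjm]
      have : 68 / 100 * ((n : ℝ) / l) = 67 / 100 * ((n : ℝ) / l) + 1 / 100 * ((n : ℝ) / l) := by
        ring
      linarith) (by
      rw [Nat.cast_sub hjm]
      have : 121 / 100 * ((n : ℝ) / l) = 120 / 100 * ((n : ℝ) / l) + 1 / 100 * ((n : ℝ) / l) := by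
        ring
      have h0 : (0 : ℝ) ≤ j := Nat.cast_nonneg _
      linarith)
    exact h1.2.1
  have hp1 : 0 < p (m + 1) := by
    have h1 := hW m (by
      have : 68 / 100 * ((n : ℝ) / l) = 67 / 100 * ((n : ℝ) / l) + 1 / 100 * ((n : ℝ) / l) := by
        ring
      linarith) (by
      have : 121 / 100 * ((n : ℝ) / l) = 120 / 100 * ((n : ℝ) / l) + 1 / 100 * ((n : ℝ) / l) := by
        ring
      linarith)
    exact h1.2.2.1
  -- logarithms
  set G : ℕ → ℝ := fun k => Real.log (lam p k) with hG
  have hG1 : ∀ j : ℕ, (j : ℝ) ≤ 4 * l + 1 →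
      998 / 1000 * x ≤ G (m - j + 1) - G (m - j) ∧ G (m - j + 1) - G (m - j) ≤ 1005 / 1000 * x := by
    intro j hj
    obtain ⟨h1, h2, h3, h4⟩ := hk j hj
    constructor
    · have h5 := Real.log_le_log (by positivity) h3
      rw [Real.log_mul h1.ne' (Real.exp_pos _).ne', Real.log_exp] at h5
      simp only [hG]
      linarith
    · have h5 := Real.log_le_log h2 h4
      rw [Real.log_mul h1.ne' (Real.exp_pos _).ne', Real.log_exp] at h5
      simp only [hG]
      linarith
  have hi0 : (0 : ℝ) ≤ i := Nat.cast_nonneg _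
  -- A
  have hA : 0 ≤ G (m + 1) - G (m + 1 - i) ∧ G (m + 1) - G (m + 1 - i) ≤ 403 / 100 * l * x := by
    have h1 : ∑ j ∈ Finset.range i, (G (m + 1 - j) - G (m + 1 - (j + 1))) =
        G (m + 1 - 0) - G (m + 1 - i) := Finset.sum_range_sub' (fun j => G (m + 1 - j)) i
    rw [Nat.sub_zero] at h1
    have h2 : ∀ j ∈ Finset.range i, 998 / 1000 * x ≤ G (m + 1 - j) - G (m + 1 - (j + 1)) ∧
        G (m + 1 - j) - G (m + 1 - (j + 1)) ≤ 1005 / 1000 * x := by
      intro j hj
      have hji : j < i := Finset.mem_range.mp hj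
      have hji' : (j : ℝ) ≤ i := by exact_mod_cast hji.le
      have h3 := hG1 j (by linarith)
      have h4 : m + 1 - j = m - j + 1 := by omega
      have h5 : m + 1 - (j + 1) = m - j := by omega
      rw [h4, h5]
      exact h3
    rw [← h1]
    constructor
    · apply Finset.sum_nonneg
      intro j hj
      have := (h2 j hj).1
      have h3 : 0 ≤ 998 / 1000 * x := by positivity
      linarith
    · calc ∑ j ∈ Finset.range i, (G (m + 1 - j) - G (m + 1 - (j + 1)))
          ≤ ∑ j ∈ Finset.range i, 1005 / 1000 * x := Finset.sum_le_sum fun j hj => (h2 j hj).2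
        _ = i * (1005 / 1000 * x) := by rw [Finset.sum_const, Finset.card_range, nsmul_eq_mul]
        _ ≤ (4 * l) * (1005 / 1000 * x) := mul_le_mul_of_nonneg_right hi (by positivity)
        _ ≤ 403 / 100 * l * x := by
            have : 0 ≤ l * x := by positivity
            nlinarith
  have hA1 : 0 ≤ G m - G (m - i) ∧ G m - G (m - i) ≤ 403 / 100 * l * x := by
    have h1 : ∑ j ∈ Finset.range i, (G (m - j) - G (m - (j + 1))) =
        G (m - 0) - G (m - i) := Finset.sum_range_sub' (fun j => G (m - j)) i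
    rw [Nat.sub_zero] at h1
    have h2 : ∀ j ∈ Finset.range i, 998 / 1000 * x ≤ G (m - j) - G (m - (j + 1)) ∧
        G (m - j) - G (m - (j + 1)) ≤ 1005 / 1000 * x := by
      intro j hj
      have hji : j < i := Finset.mem_range.mp hj
      have hji' : (j : ℝ) ≤ i := by exact_mod_cast hji.le
      have h3 := hG1 (j + 1) (by
        push_cast
        linarith)
      have h4 : m - (j + 1) + 1 = m - j := by omega
      rw [h4] at h3
      exact h3
    rw [← h1]
    constructor
    · apply Finset.sum_nonneg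
      intro j hj
      have := (h2 j hj).1
      have h3 : 0 ≤ 998 / 1000 * x := by positivity
      linarith
    · calc ∑ j ∈ Finset.range i, (G (m - j) - G (m - (j + 1)))
          ≤ ∑ j ∈ Finset.range i, 1005 / 1000 * x := Finset.sum_le_sum fun j hj => (h2 j hj).2
        _ = i * (1005 / 1000 * x) := by rw [Finset.sum_const, Finset.card_range, nsmul_eq_mul]
        _ ≤ (4 * l) * (1005 / 1000 * x) := mul_le_mul_of_nonneg_right hi (by positivity)
        _ ≤ 403 / 100 * l * x := by
            have : 0 ≤ l * x := by positivity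
            nlinarith
  have hdiff : |(G (m + 1) - G (m + 1 - i)) - (G m - G (m - i))| ≤ 7 / 1000 * x := by
    have h1 := hG1 0 (by
      push_cast
      linarith)
    have h2 := hG1 i (by linarith)
    rw [Nat.sub_zero] at h1
    have h3 : m - i + 1 = m + 1 - i := by omega
    rw [h3] at h2
    rw [abs_le]
    constructor
    · linarith [h1.1, h1.2, h2.1, h2.2]
    · linarith [h1.1, h1.2, h2.1, h2.2]
  -- the terms
  have hF : ff p i m = (∏ j ∈ Finset.range i, lam p (m - j)) / (i.factorial : ℝ) :=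
    hWL0 p i m (by omega) (fun j hj => hp j (by
      have : (j : ℝ) ≤ i := by exact_mod_cast hj
      linarith))
  have hF1 : ff p i (m + 1) = (∏ j ∈ Finset.range i, lam p (m + 1 - j)) / (i.factorial : ℝ) :=
    hWL0 p i (m + 1) (by omega) (fun j hj => by
      rcases Nat.eq_zero_or_pos j with h0 | h0
      · rw [h0, Nat.sub_zero]
        exact hp1
      · have h1 : m + 1 - j = m - (j - 1) := by omega
        rw [h1]
        apply hp
        have h2 : (((j - 1 : ℕ)) : ℝ) ≤ i := by
          have : j - 1 ≤ i := by omega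
          exact_mod_cast this
        linarith)
  have hF2 : ff p i (m - 1) = (∏ j ∈ Finset.range i, lam p (m - 1 - j)) / (i.factorial : ℝ) :=
    hWL0 p i (m - 1) (by omega) (fun j hj => by
      have h1 : m - 1 - j = m - (j + 1) := by omega
      rw [h1]
      apply hp
      have h2 : (j : ℝ) ≤ i := by exact_mod_cast hj
      push_cast
      linarith)
  have hfac : (0 : ℝ) < (i.factorial : ℝ) := by exact_mod_cast Nat.factorial_pos i
  have hlamj : ∀ j : ℕ, j ≤ i → 0 < lam p (m - j) := by
    intro j hj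
    have h2 : (j : ℝ) ≤ i := by exact_mod_cast hj
    exact (hk j (by linarith)).1
  have hFpos : 0 < ff p i m := by
    rw [hF]
    apply div_pos _ hfac
    apply Finset.prod_pos
    intro j hj
    exact hlamj j (Finset.mem_range.mp hj).le
  have hL1 : 0 < lam p (m + 1) := by
    have := (hk 0 (by
      push_cast
      linarith)).2.1
    rwa [Nat.sub_zero] at this
  have hL1i : 0 < lam p (m + 1 - i) := by
    have := (hk i (by linarith)).2.1
    have h3 : m - i + 1 = m + 1 - i := by omega
    rwa [h3] at this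
  have hL0 : 0 < lam p m := by
    have := hlamj 0 (Nat.zero_le _)
    rwa [Nat.sub_zero] at this
  have hLi : 0 < lam p (m - i) := hlamj i le_rfl
  have hr1 : ff p i (m + 1) = ff p i m * Real.exp (G (m + 1) - G (m + 1 - i)) := by
    have h1 : (∏ j ∈ Finset.range i, lam p (m + 1 - j)) * lam p (m + 1 - i) =
        (∏ j ∈ Finset.range i, lam p (m - j)) * lam p (m + 1) := by
      rw [← Finset.prod_range_succ (fun j => lam p (m + 1 - j)) i,
        Finset.prod_range_succ' (fun j => lam p (m + 1 - j)) i]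
      congr 1
      apply Finset.prod_congr rfl
      intro j _
      have : m + 1 - (j + 1) = m - j := by omega
      rw [this]
    have h2 : Real.exp (G (m + 1) - G (m + 1 - i)) = lam p (m + 1) / lam p (m + 1 - i) := by
      simp only [hG]
      rw [Real.exp_sub, Real.exp_log hL1, Real.exp_log hL1i]
    rw [h2, hF1, hF, div_mul_div_comm, div_eq_div_iff hfac.ne' (by positivity)]
    calc (∏ j ∈ Finset.range i, lam p (m + 1 - j)) * ((i.factorial : ℝ) * lam p (m + 1 - i))
        = ((∏ j ∈ Finset.range i, lam p (m + 1 - j)) * lam p (m + 1 - i)) *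
          (i.factorial : ℝ) := by ring
      _ = (∏ j ∈ Finset.range i, lam p (m - j)) * lam p (m + 1) * (i.factorial : ℝ) := by
          rw [h1]
  have hr2 : ff p i (m - 1) = ff p i m * Real.exp (-(G m - G (m - i))) := by
    have h1 : (∏ j ∈ Finset.range i, lam p (m - 1 - j)) * lam p m =
        (∏ j ∈ Finset.range i, lam p (m - j)) * lam p (m - i) := by
      rw [← Finset.prod_range_succ (fun j => lam p (m - j)) i,
        Finset.prod_range_succ' (fun j => lam p (m - j)) i, Nat.sub_zero]
      congr 1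
      apply Finset.prod_congr rfl
      intro j _
      have : m - 1 - j = m - (j + 1) := by omega
      rw [this]
    have h2 : Real.exp (-(G m - G (m - i))) = lam p (m - i) / lam p m := by
      have h3 : -(G m - G (m - i)) = G (m - i) - G m := by ring
      rw [h3]
      simp only [hG]
      rw [Real.exp_sub, Real.exp_log hL0, Real.exp_log hLi]
    rw [h2, hF2, hF, div_mul_div_comm, div_eq_div_iff hfac.ne' (by positivity)]
    calc (∏ j ∈ Finset.range i, lam p (m - 1 - j)) * ((i.factorial : ℝ) * lam p m)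
        = ((∏ j ∈ Finset.range i, lam p (m - 1 - j)) * lam p m) *
          (i.factorial : ℝ) := by ring
      _ = (∏ j ∈ Finset.range i, lam p (m - j)) * lam p (m - i) * (i.factorial : ℝ) := by
          rw [h1]
  refine ⟨hFpos, ?_⟩
  have hE := wl2_exp (G (m + 1) - G (m + 1 - i)) (G m - G (m - i)) x l
    (by rw [abs_of_nonneg hA.1]; exact hA.2) (by rw [abs_of_nonneg hA1.1]; exact hA1.2)
    hdiff hx0 hl1 hxs
  have h9 : ff p i (m + 1) + ff p i (m - 1) - 2 * ff p i m =
      ff p i m * (Real.exp (G (m + 1) - G (m + 1 - i)) + Real.exp (-(G m - G (m - i))) - 2) := by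
    rw [hr1, hr2]
    ring
  rw [h9, abs_mul, abs_of_pos hFpos, mul_comm]
  exact mul_le_mul_of_nonneg_right hE hFpos.le

end Pool.Agent.Helper5.FV
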